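import Pool.Agent.TH340.EE.LevP
import Pool.Agent.W597.HE.It
import Pool.Agent.W991.HE.Tp
import Pool.Agent.W52.TQ.Univ
import Pool.Agent.W405.HE.Cmp
import Pool.Agent.W701.HE.Reg
import Pool.Agent.W933.HE.ShiftCont

/-!
# MP_a38b17_an: at which times energy can be lost

`u` is a Leray-Hopf solution on `[0,T]` with the strong energy inequality in a bounded open set and
`D(t) ≥ 0` its energy defect; the energy equality is `D = 0`. For almost every level `b` reached by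
`D` there is a first time `τ` at which `D(τ) ≥ b`, and at this time

(a) `h^{-1/2} ∫_{τ-h}^τ ‖∇u‖² → ∞` as `h → 0+` (along ALL scales),
(b) for each `M` there are infinitely many `k` such that
    `w_k (‖u(s)‖² - ‖u(τ)‖²) > M 2^{-k/2}` for almost all `s ∈ (τ - 2^{-k}, τ - 2^{-k-1})`,
(c) `u` is not continuous from the left at `τ` if `τ ∈ N`.

Here `w_k ≥ 0` are any fixed numbers with `∑ w_k = ∞`, and `N` is any countable set. In particular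
the energy equality holds if no time `τ ∈ (0,T]` has the properties (a), (b) and (c).
-/

set_option autoImplicit false

open MeasureTheory Set Filter Topology
open scoped InnerProductSpace ENNReal ContDiff

namespace Pool.Agent.Results.MP_a38b17_an.DefectLevels

open H772R2.NS.Pub Pool.Agent.W795.TQ
open Pool.Agent.W795.HE (StrongEnergy)

/-- The energy defect
`D(t) = ‖u(0)‖²/2 + ∫₀ᵗ ⟨f, u⟩ - ‖u(t)‖²/2 - ν ∫₀ᵗ ‖∇u‖²`; here `G = ∇u` and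
`⟨f, u⟩ = (F, ∇u)`. -/
noncomputable def defect {Ω : Set R3} (ν : ℝ) (F : ℝ → L2 Ω Mat) (u : ℝ → L2 Ω R3)
    (G : ℝ → L2 Ω Mat) (t : ℝ) : ℝ :=
  ‖u 0‖ ^ 2 / 2 + (∫ s in (0 : ℝ)..t, ⟪F s, G s⟫_ℝ) - ‖u t‖ ^ 2 / 2
    - ν * ∫ s in (0 : ℝ)..t, ‖G s‖ ^ 2

/-- Let `u` be a Leray-Hopf solution on `[0,T]` with the strong energy inequality, in a bounded
open set `Ω`, with values in the closure of `H1₀σ` in `L²`, with force
`⟨f(t), φ⟩ = (F(t), ∇φ)`, `F ∈ H¹(0,T; L²)`; `G = ∇u`. -/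
theorem result :
    ∀ (Ω : Set R3), IsOpen Ω → Bornology.IsBounded Ω → ∀ (ν T : ℝ), 0 < ν → 0 < T →
    ∀ (F F' : ℝ → L2 Ω Mat), IsH1 T F F' →
    ∀ (u : ℝ → L2 Ω R3) (G : ℝ → L2 Ω Mat), IsLerayHopf Ω ν T F u G → StrongEnergy ν T F u G →
    (∀ t ∈ Icc 0 T, u t ∈ closure {v : L2 Ω R3 | ∃ g : L2 Ω Mat, (v, g) ∈ H1graph Ω}) →
    ∀ w : ℕ → ℝ, (∀ k, 0 ≤ w k) → ¬ Summable w → ∀ N : Set ℝ, N.Countable →
    ∀ᵐ b ∂(volume : Measure ℝ), ∀ t ∈ Icc 0 T, 0 < b → b ≤ defect ν F u G t →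
      ∃ τ ∈ Ioc 0 t, (b ≤ defect ν F u G τ ∧ ∀ s ∈ Ico 0 τ, defect ν F u G s < b) ∧
        Tendsto (fun h => (∫ s in (τ - h)..τ, ‖G s‖ ^ 2) / Real.sqrt h) (𝓝[>] 0) atTop ∧
        (∀ M : ℝ, ∃ᶠ k : ℕ in atTop,
          ∀ᵐ s ∂(volume.restrict (Ioo (τ - (1 / 2) ^ k) (τ - (1 / 2) ^ (k + 1)))),
            M * Real.sqrt ((1 / 2) ^ k) < w k * (‖u s‖ ^ 2 - ‖u τ‖ ^ 2)) ∧
        (τ ∈ N → ¬ Tendsto u (𝓝[<] τ) (𝓝 (u τ))) := by
  intro Ω hΩ hb ν T hν hT F F' hF u G hu hSE hcl w hw0 hw N hN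
  refine Pool.Agent.TH340.EE.lev_mid Pool.Agent.W991.HE.proof_tp
    Pool.Agent.W991.HE.proof_grw (Pool.Agent.W701.HE.proof Pool.Agent.W405.HE.Cmp.proof)
    Pool.Agent.W933.HE.proof_shift
    Pool.Agent.W52.TQ.proof_univ Ω hΩ hb ν T hν hT F F' hF.memLp hF.prim u G hu hSE
    (fun t ht => closure_mono ?_ (hcl t ht)) w hw0 hw N hN (defect ν F u G) (fun t => rfl)
  rintro v ⟨g, hg⟩
  exact ⟨g, mem_pub.mpr hg⟩

end Pool.Agent.Results.MP_a38b17_an.DefectLevels
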