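import Pool.Agent.TH340.FF.En2
import Pool.Agent.TH340.FF.PubDef
import Pool.Agent.TH340.FF.LH

/-!
# Energy equality from one-sided bounds for pairs of particles, with an arbitrary constant

The energy equality holds for a weak solution `u` of the Navier-Stokes equations in an arbitrary
bounded open set `Ω ⊆ ℝ³` (no energy inequality is assumed) if at almost every time one of the
following holds, where `κ ≥ 0` is an arbitrary constant, `B ≥ 0` and `r > 0` are functions of time
such that `B + κ / r²` is integrable, and `b ≥ 0` is integrable: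
* `(x - y)·(u(x) - u(y)) ≥ -κ - B |x - y|²` for almost all `x, y ∈ ℝ³` at distance less than `r`;
* `(x - y)·(u(x) - u(y)) ≤ κ + B |x - y|²` for almost all `x, y ∈ ℝ³` at distance less than `r`;
* `‖u‖⁴_{L⁴(Ω)} ≤ b`
(`u = 0` outside `Ω`). The constant `κ` is not small compared to the viscosity; the condition is
invariant under the scaling of the equations, and it is not known to imply regularity.

The form inequality `|∫ v·S v| ≤ 2κ / (log 2)² ∫ |∇v|² + 5 B' ∫ |v|²` for the strain `S` of `u`
gives, by polarisation, `|b(u(τ), u(τ), u(t))| ≤ a (‖∇u(τ)‖² + ‖∇u(t)‖²) + b(τ)` for almost all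
`τ, t`. By a chaining argument along dyadic sequences of times `t` at which `‖∇u(t)‖²` is at most
twice its average, this implies that the kinetic energy is an absolutely continuous function of
time. An absolutely continuous kinetic energy implies the energy equality by the Sard type theorem
of the library.
-/

set_option autoImplicit false

open MeasureTheory Set
open scoped InnerProductSpace ENNReal ContDiff

namespace Pool.Agent.Results.MP_a38b17_an.PairEnergyEquality

open H772R2.NS.Pub Pool.Agent.TH340.FF

/-- Let `u` be a weak solution of the Navier-Stokes equations in a bounded open set `Ω ⊆ ℝ³`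
(no energy inequality is assumed), with gradient `G` and force `f`. Let `κ ≥ 0` be a number, and
let `B ≥ 0`, `r > 0`, `b ≥ 0` be functions of time such that `B + κ / r²` and `b` are integrable on
`(0,T)`. Suppose that for almost every `t ∈ (0,T)` particles at distance less than `r(t)` approach
slowly, with the constants `κ` and `B(t)`, or they separate slowly, with the constants `κ` and
`B(t)`, or `‖u(t)‖⁴_{L⁴(Ω)} ≤ b(t)`. Then the energy equality holds: the energy defect is zero at
all times in `[0,T]`. -/
theorem result {Ω : Set R3} (hΩ : IsOpen Ω) (hbd : Bornology.IsBounded Ω) {ν T κ : ℝ}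
    (hν : 0 < ν) (hT : 0 < T) (hκ : 0 ≤ κ)
    {u : ℝ → L2 Ω R3} {G : ℝ → L2 Ω Mat} {f : ℝ → L2 Ω R3} (hu : IsWeakSolution Ω ν T u G f)
    {B r b : ℝ → ℝ} (hB : ∀ t, 0 ≤ B t) (hr : ∀ t, 0 < r t) (hb : ∀ t, 0 ≤ b t)
    (hint : IntegrableOn (fun t => B t + κ / r t ^ 2) (Ioo 0 T)) (hintb : IntegrableOn b (Ioo 0 T))
    (hyp : ∀ᵐ t ∂(volume.restrict (Ioo 0 T)),
      Approach κ (B t) (r t) (u t) ∨ Separate κ (B t) (r t) (u t) ∨
      norm4 (u t) ^ 4 ≤ ENNReal.ofReal (b t)) :
    ∀ t ∈ Icc 0 T, energyDefect ν u G f t = 0 := by
  have hq : ∀ t, 0 ≤ κ / r t ^ 2 := fun t => by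
    have := hr t
    positivity
  have hint4 : IntegrableOn (fun t => 4 * (B t + κ / r t ^ 2) + b t) (Ioo 0 T) := by
    have h1 : Integrable (fun t => B t + κ / r t ^ 2) (volume.restrict (Ioo 0 T)) := hint
    have h2 : Integrable b (volume.restrict (Ioo 0 T)) := hintb
    exact (h1.const_mul 4).add h2
  have key := energy_eq_pair (Ω := (Ω : Set H772R2.NS.E3)) hΩ hbd hν.le hT hκ (toNS hu)
    (b := fun t => 4 * (B t + κ / r t ^ 2) + b t)
    (fun t => by
      have h1 := hB t
      have h2 := hq t
      have h3 := hb t
      positivity)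
    hint4
    (by
      filter_upwards [hyp] with t ht
      have h1 := hB t
      have h2 := hq t
      have h3 := hb t
      have h4 : B t + 4 * κ / r t ^ 2 ≤ 4 * (B t + κ / r t ^ 2) + b t := by
        have e1 : 4 * κ / r t ^ 2 = 4 * (κ / r t ^ 2) := by ring
        rw [e1]
        linarith
      rcases ht with ht | ht | ht
      · exact Or.inl ⟨B t, r t, h1, hr t, h4, locBd_of_approach ht⟩
      · exact Or.inr (Or.inl ⟨B t, r t, h1, hr t, h4, locBd_of_separate ht⟩)
      · refine Or.inr (Or.inr (le_trans ht (ENNReal.ofReal_le_ofReal ?_)))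
        linarith)
  exact key

end Pool.Agent.Results.MP_a38b17_an.PairEnergyEquality
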