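import Pool.Agent.TH301.EQ.PubGood

/-!
# The energy defect and the times of type I

Let `u` be a weak solution of the Navier-Stokes equations in an arbitrary open set `Ω ⊆ ℝ³`; no
energy inequality is assumed. Let `D(t)` be the energy defect: the energy inequality between the
times `0` and `t` says `D(t) ≥ 0`, that between `s` and `t` says `D(s) ≤ D(t)`. The theorem describes
how `D` can change at the times of type I, with constants which depend on the time in an arbitrary
way.

* (Sard) `D` maps the set of the times of type I, `∫_J ‖∇u‖² ≤ C |J|^{1/2}` for all short intervals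
  `J ∋ t`, together with the set of the times of finite enstrophy, to a Lebesgue null set.
* (Category) The times which are not of type I are dense in the set of the times near which the
  energy equality fails. So the energy equality holds if each time is of type I.
* (Forward) If for each time `t` there are `C` and `δ > 0` with `∫_t^{t+h} ‖∇u‖² ≤ C h^{1/2}` for
  `0 < h ≤ δ`, and if the energy does not jump downwards from the left, then `D` is nonincreasing. So
  if, moreover, the energy inequality holds between `0` and `T`, as for all Leray-Hopf solutions,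
  then the energy equality holds on `[0,T]`.
* (Backward) If for each time `t` there are `C` and `δ > 0` with `∫_{t-h}^t ‖∇u‖² ≤ C h^{1/2}` for
  `0 < h ≤ δ`, and if the energy does not jump upwards to the right, then `D` is nondecreasing: the
  strong energy inequality holds, from each time `s` to each time `t ≥ s`.

A countable set `N` of exceptional times is allowed at which only the absence of jumps is assumed.
The times of type I may be replaced by the more general *good* times, which are of type I or tame for
one of countably many integrable weights `θ n`: `(∫_J ‖∇u‖²)⁵ ≤ C |J| (∫_J θ n)³` for all short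
intervals `J` with `t ∈ 3J`. If `‖∇u‖^{5/2}` is integrable, then all times are tame for this weight;
if `m ‖∇u‖²` is integrable and `(∫_J ‖∇u‖²)² ≤ m(t)³ |J|` for almost all `t ∈ J` and all `J`, then all
times are tame for `m ‖∇u‖²`.

The proof uses a local estimate of the increments of a weak solution in an interval `J` in terms of
`(∫_J ‖∇u‖²)² / |J|` (a closed loop: the trilinear form is bounded by the gradients and the square
root of the increments), a chaining argument towards each single time, Baire's theorem, and the Sard
type theorem of the library.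
-/

set_option autoImplicit false

open MeasureTheory Set

namespace Pool.Agent.Results.MP_a38b17_an.TypeITimes

open H772R2.NS.Pub Pool.Agent.TH301.EQ

/-- Let `u` be a weak solution of the Navier-Stokes equations in an open set `Ω ⊆ ℝ³` (no energy
inequality is assumed), with gradient `G`, force `f` and energy defect `D`. Let `θ n ≥ 0` be
integrable on `(0,T)`, and let `N` be countable.
1. `D` maps the set of the times `t` which are good or satisfy `u(t) ∈ H¹_{0,σ}(Ω)` to a null set.
2. If `‖u‖` does not jump at the times in `N`, then the times which are not in `N` and not good are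
   dense in the set `rough T D` of the times near which `D` is not constant; and if all times in
   `rough T D` are in `N` or good, then `D = 0` on `[0,T]`.
3. If `‖u‖` does not jump to the right at the times in `N`, and if at all times near which `D` is not
   nonincreasing `‖u‖` does not jump from the left and the time is in `N` or good to the right, then
   `D` is nonincreasing; if, moreover, `D(T) ≥ 0`, then `D = 0` on `[0,T]`.
4. If `‖u‖` does not jump from the left at the times in `N`, and if at all times near which `D` is
   not nondecreasing `‖u‖` does not jump to the right and the time is in `N` or good from the left,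
   then `D` is nondecreasing. -/
theorem result {Ω : Set R3} (hΩ : IsOpen Ω) {ν T : ℝ} (hν : 0 < ν) (hT : 0 < T)
    {u : ℝ → L2 Ω R3} {G : ℝ → L2 Ω Mat} {f : ℝ → L2 Ω R3} (hu : IsWeakSolution Ω ν T u G f)
    {θ : ℕ → ℝ → ℝ} (h0 : ∀ n t, 0 ≤ θ n t) (hi : ∀ n, IntegrableOn (θ n) (Ioo 0 T))
    {N : Set ℝ} (hN : N.Countable) :
    volume (energyDefect ν u G f '' {t | t ∈ Icc 0 T ∧ (u t ∈ H10sigma Ω ∨
      Good T (fun τ => ‖G τ‖ ^ 2) θ t)}) = 0 ∧
    ((∀ t ∈ N, NoJump T u t) →
      (∀ t₀ ∈ rough T (energyDefect ν u G f), ∀ δ > 0, ∃ t ∈ rough T (energyDefect ν u G f),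
        |t - t₀| < δ ∧ t ∉ N ∧ ¬ Good T (fun τ => ‖G τ‖ ^ 2) θ t) ∧
      ((∀ t ∈ rough T (energyDefect ν u G f), t ∈ N ∨ Good T (fun τ => ‖G τ‖ ^ 2) θ t) →
        ∀ t ∈ Icc 0 T, energyDefect ν u G f t = 0)) ∧
    ((∀ t ∈ N, NoJumpRight T u t) →
      (∀ t ∈ rising T (energyDefect ν u G f),
        NoJumpLeft u t ∧ (t ∈ N ∨ GoodRight T (fun τ => ‖G τ‖ ^ 2) θ t)) →
      (∀ s t, 0 ≤ s → s ≤ t → t ≤ T → energyDefect ν u G f t ≤ energyDefect ν u G f s) ∧
      (0 ≤ energyDefect ν u G f T → ∀ t ∈ Icc 0 T, energyDefect ν u G f t = 0)) ∧
    ((∀ t ∈ N, NoJumpLeft u t) →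
      (∀ t ∈ falling T (energyDefect ν u G f),
        NoJumpRight T u t ∧ (t ∈ N ∨ GoodLeft (fun τ => ‖G τ‖ ^ 2) θ t)) →
      ∀ s t, 0 ≤ s → s ≤ t → t ≤ T → energyDefect ν u G f s ≤ energyDefect ν u G f t) :=
  ⟨good_null hΩ hν.le hT hu h0 hi,
    fun hJ => ⟨good_dense hΩ hν.le hT hu h0 hi hN hJ, good_eq hΩ hν.le hT hu h0 hi hN hJ⟩,
    fun hJ h =>
      have k := good_forward hΩ hν.le hT hu h0 hi hN hJ (fun t ht => (h t ht).1)
        (fun t ht => (h t ht).2)
      ⟨k, eq_of_anti k⟩,
    fun hJ h => good_backward hΩ hν.le hT hu h0 hi hN hJ (fun t ht => (h t ht).1)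
      (fun t ht => (h t ht).2)⟩

end Pool.Agent.Results.MP_a38b17_an.TypeITimes
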