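import Pool.Agent.TH301.EQ.PubCor

/-!
# Energy equality from the direction of the velocity at two times

Let `u` be a weak solution of the Navier-Stokes equations in an arbitrary open set `Ω ⊆ ℝ³` (no
energy inequality is assumed), `G = ∇u`, `8/3 ≤ p ≤ 4`, and `u ∈ L^p(0,T; L⁴(Ω))`; this is no
condition for `p = 8/3`. Let `m(s,t) = |s - t|^{2/p - 1/2} + ‖u(s)‖₄^{p/2 - 2} + ‖u(t)‖₄^{p/2 - 2}`;
for `p = 8/3` this is `|s - t|^{1/4} + ‖u(s)‖₄^{-2/3} + ‖u(t)‖₄^{-2/3}`, and for `p = 4` it is `3`.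
The energy equality holds in each of the following cases, where `K` is an arbitrary constant.

* Directions of large velocities: for almost all `s, t, x` with `|u(s,x)| > R(s)` and
  `|u(t,x)| > R(t)`, where `R ∈ L²(0,T)`, the sine of the angle between `u(s,x)` and `u(t,x)` is at
  most `K m(s,t)`.
* Direction fields: there are unit vectors `d(t,x)` with `|d(s,x) - d(t,x)| ≤ K m(s,t)` such that
  the part of the velocity perpendicular to `d` belongs to a Serrin class, `2/a + 3/b = 1`.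
  No regularity of `d` in `x` is assumed.
* The triple products `ω(s,x)·(u(s,x) × u(t,x))`, `ω = curl u`, are at most
  `|∇u(s,x)| (K m(s,t) |u(s,x)| |u(t,x)| + v(s,x) |u(t,x)| + |u(s,x)| v(t,x))`, where `v` belongs to
  a Serrin class.
* The time correlations of the velocity satisfy
  `|(u(t) - u(s), u(t))| ≤ |∫_s^t ψ| + |s - t| ψ(t)` for almost every `t` and all `s`, where
  `ψ ∈ L¹(0,T)`.

The first two are special cases of the third, whose proof goes as follows. The trilinear form is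
`b(v, v, w) = ∫ ∇v : (v ⊗ w - w ⊗ v)`, up to sign the integral of `curl v · (v × w)`. So the
hypothesis gives `|b(u(s), u(s), u(t))| ≤ ψ(s) + ψ(t) + |s - t| ψ(s) ψ(t)` with an integrable
function `ψ`, by the inequality of the weighted means. Taking `u(t)` as a test field, this implies
the bound of the correlations. By a chaining argument along dyadic sequences of times this implies
that the kinetic energy is an absolutely continuous function of time, and this implies the energy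
equality, by the Sard type theorem of the library.
-/

set_option autoImplicit false

open MeasureTheory Set
open scoped InnerProductSpace ENNReal

namespace Pool.Agent.Results.MP_a38b17_an.VelocityDirection

open H772R2.NS.Pub Pool.Agent.TH301.EQ

/-- Let `u` be a weak solution of the Navier-Stokes equations in an open set `Ω ⊆ ℝ³` (no energy
inequality is assumed), with gradient `G` and force `f`. The energy defect vanishes on `[0,T]` in
each of the following cases:
1. `|(u(t) - u(s), u(t))| ≤ |∫_s^t ψ| + |s - t| ψ(t)` for almost every `t` and all `s`, with an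
   integrable function `ψ ≥ 0`;
2. the bound of the triple products;
3. the bound of the vector products of large velocities;
4. direction fields. -/
theorem result {Ω : Set R3} (hΩ : IsOpen Ω) {ν T : ℝ} (hν : 0 < ν) (hT : 0 < T)
    {u : ℝ → L2 Ω R3} {G : ℝ → L2 Ω Mat} {f : ℝ → L2 Ω R3} (hu : IsWeakSolution Ω ν T u G f) :
    (∀ ψ : ℝ → ℝ, (∀ t, 0 ≤ ψ t) → IntegrableOn ψ (Ioo 0 T) →
      (∀ᵐ t ∂(volume.restrict (Ioo 0 T)), ∀ s ∈ Icc 0 T,
        |⟪u t - u s, u t⟫_ℝ| ≤ |∫ r in s..t, ψ r| + |s - t| * ψ t) →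
      ∀ t ∈ Icc 0 T, energyDefect ν u G f t = 0) ∧
    ∀ K p : ℝ, 0 ≤ K → 8 / 3 ≤ p → p ≤ 4 →
      (p ≠ 8 / 3 → ∫⁻ t in Ioo 0 T, norm4 (u t) ^ p ≠ ⊤) →
      (∀ (a b : ℝ≥0∞) (v : ℝ → R3 → ℝ), Serrin Ω T a b v →
        (∀ᵐ t ∂(volume.restrict (Ioo 0 T)), ∀ᵐ s ∂(volume.restrict (Ioo 0 T)),
          ∀ᵐ x ∂(volume.restrict Ω), |⟪(G s).fn x, wedge ((u s).fn x) ((u t).fn x)⟫_ℝ|
            ≤ ‖(G s).fn x‖ * (K * modulus p u s t * ‖(u s).fn x‖ * ‖(u t).fn x‖
              + v s x * ‖(u t).fn x‖ + ‖(u s).fn x‖ * v t x)) →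
        ∀ t ∈ Icc 0 T, energyDefect ν u G f t = 0) ∧
      (∀ R : ℝ → ℝ, MemLp R 2 (volume.restrict (Ioo 0 T)) →
        (∀ᵐ t ∂(volume.restrict (Ioo 0 T)), ∀ᵐ s ∂(volume.restrict (Ioo 0 T)),
          ∀ᵐ x ∂(volume.restrict Ω), R s < ‖(u s).fn x‖ → R t < ‖(u t).fn x‖ →
            cross ((u s).fn x) ((u t).fn x)
              ≤ K * modulus p u s t * ‖(u s).fn x‖ * ‖(u t).fn x‖) →
        ∀ t ∈ Icc 0 T, energyDefect ν u G f t = 0) ∧
      (∀ d : ℝ → R3 → R3, (∀ t ∈ Ioo 0 T, ∀ x ∈ Ω, ‖d t x‖ = 1) →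
        (∀ s ∈ Ioo 0 T, ∀ t ∈ Ioo 0 T, ∀ x ∈ Ω, ‖d s x - d t x‖ ≤ K * modulus p u s t) →
        ∀ a b : ℝ≥0∞, Serrin Ω T a b (fun t x => perp (d t x) ((u t).fn x)) →
        ∀ t ∈ Icc 0 T, energyDefect ν u G f t = 0) :=
  ⟨fun _ h1 h2 h3 => pub_corr hΩ hν.le hT hu h1 h2 h3, fun _ _ hK hp hp4 h4 =>
    ⟨fun _ _ _ hv h => pub_trip hΩ hν.le hT hu hK hp hp4 h4 hv h,
      fun _ hR h => pub_large hΩ hν.le hT hu hK hp hp4 h4 hR h,
      fun _ hd hd2 _ _ hv => pub_dir hΩ hν.le hT hu hK hp hp4 h4 hd hd2 hv⟩⟩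

end Pool.Agent.Results.MP_a38b17_an.VelocityDirection
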